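import Mathlib

/-!
Neighborhood subtree tolerance graphs (NeST graphs): definitions, the size formula for the
intersection of two neighborhood subtrees, and a combinatorial obstruction to having a bounded
representation.
-/

namespace Pool.Agent.Helper997.NeST

open Metric Set

/-- `T` is an embedded tree, that is, a finite tree with positive edge lengths viewed as a metric
space containing all interior points of its edges. Such metric spaces are exactly the nonempty
geodesic metric spaces that satisfy the four-point condition and are spanned by a finite set of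
points `F`: every point lies on the path between two points of `F`. -/
structure IsEmbeddedTree (T : Type) [MetricSpace T] : Prop where
  nonempty : Nonempty T
  geodesic : ∀ x y : T, ∀ s : ℝ, 0 ≤ s → s ≤ dist x y →
    ∃ z, dist x z = s ∧ dist z y = dist x y - s
  fourPoint : ∀ x y z w : T,
    dist x y + dist z w ≤ max (dist x z + dist y w) (dist x w + dist y z)
  spanned : ∃ F : Set T, F.Finite ∧ ∀ x, ∃ p ∈ F, ∃ q ∈ F, dist p x + dist x q = dist p q

/-- `c`, `r`, `t` (centres, radii, tolerances) form a NeST representation of `G` on `T`. The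
neighborhood subtree of `v` is the closed ball about `c v` of radius `r v`; its size (diameter) is
`2 * r v`, and the size of an intersection is its diameter. -/
structure IsNeSTRep {V T : Type} [MetricSpace T] (G : SimpleGraph V) (c : V → T) (r t : V → ℝ) :
    Prop where
  radius_pos : ∀ v, 0 < r v
  tolerance_pos : ∀ v, 0 < t v
  size : ∀ v, diam (closedBall (c v) (r v)) = 2 * r v
  adj_iff : ∀ x y, x ≠ y → (G.Adj x y ↔
    (closedBall (c x) (r x) ∩ closedBall (c y) (r y)).Nonempty ∧
      min (t x) (t y) ≤ diam (closedBall (c x) (r x) ∩ closedBall (c y) (r y)))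

/-- `G` is a NeST graph. -/
def IsNeST {V : Type} (G : SimpleGraph V) : Prop :=
  ∃ (T : Type) (_ : MetricSpace T), IsEmbeddedTree T ∧
    ∃ (c : V → T) (r t : V → ℝ), IsNeSTRep G c r t

/-- `G` is a bounded NeST graph: it has a representation with `t v ≤ 2 * r v` for every `v`. -/
def IsBoundedNeST {V : Type} (G : SimpleGraph V) : Prop :=
  ∃ (T : Type) (_ : MetricSpace T), IsEmbeddedTree T ∧
    ∃ (c : V → T) (r t : V → ℝ), IsNeSTRep G c r t ∧ ∀ v, t v ≤ 2 * r v

/-! ### Embedded trees are compact -/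

section Tree

variable {T : Type} [MetricSpace T]

lemma IsEmbeddedTree.segment_compact (h : IsEmbeddedTree T) (p q : T) :
    ∃ K : Set T, IsCompact K ∧ ∀ x, dist p x + dist x q = dist p q → x ∈ K := by
  have hex : ∀ s : Icc (0 : ℝ) (dist p q), ∃ z, dist p z = s ∧ dist z q = dist p q - s :=
    fun s => h.geodesic p q s s.2.1 s.2.2
  choose f hf1 hf2 using hex
  have hlip : ∀ s s' : Icc (0 : ℝ) (dist p q), dist (f s) (f s') ≤ dist s s' := by
    intro s s'
    have h4 := h.fourPoint (f s) (f s') p q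
    rw [dist_comm (f s) p, dist_comm (f s') p, hf1, hf1, hf2, hf2] at h4
    rw [Subtype.dist_eq, Real.dist_eq]
    rcases le_max_iff.mp h4 with h5 | h5
    · have := neg_abs_le ((s : ℝ) - s')
      have := le_abs_self ((s : ℝ) - s')
      linarith
    · have := neg_abs_le ((s : ℝ) - s')
      have := le_abs_self ((s : ℝ) - s')
      linarith
  have hcont : Continuous f := by
    have : LipschitzWith 1 f := LipschitzWith.of_dist_le_mul (by simpa using hlip)
    exact this.continuous
  refine ⟨range f, isCompact_range hcont, ?_⟩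
  intro x hx
  have hs : dist p x ∈ Icc (0 : ℝ) (dist p q) := by
    constructor
    · exact dist_nonneg
    · have := dist_nonneg (x := x) (y := q)
      linarith
  refine ⟨⟨dist p x, hs⟩, ?_⟩
  have h4 := h.fourPoint (f ⟨dist p x, hs⟩) x p q
  have e1 := hf1 ⟨dist p x, hs⟩
  have e2 := hf2 ⟨dist p x, hs⟩
  simp only at e1 e2
  rw [dist_comm (f ⟨dist p x, hs⟩) p, dist_comm x p, e1, e2] at h4
  have : dist (f ⟨dist p x, hs⟩) x ≤ 0 := by
    rcases le_max_iff.mp h4 with h5 | h5 <;> linarith
  exact dist_le_zero.mp this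

lemma IsEmbeddedTree.compact (h : IsEmbeddedTree T) : CompactSpace T := by
  obtain ⟨F, hF, hspan⟩ := h.spanned
  choose K hK hmem using h.segment_compact
  have hc : IsCompact (⋃ p ∈ F, ⋃ q ∈ F, K p q) :=
    hF.isCompact_biUnion fun p _ => hF.isCompact_biUnion fun q _ => hK p q
  refine ⟨?_⟩
  have : (univ : Set T) = ⋃ p ∈ F, ⋃ q ∈ F, K p q := by
    symm
    rw [eq_univ_iff_forall]
    intro x
    obtain ⟨p, hp, q, hq, hpq⟩ := hspan x
    simp only [mem_iUnion]
    exact ⟨p, hp, q, hq, hmem p q x hpq⟩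
  rw [this]
  exact hc

/-! ### The size formula -/

lemma exists_diametral (h : IsEmbeddedTree T) {c : T} {r : ℝ} (hr : 0 < r)
    (hs : diam (closedBall c r) = 2 * r) :
    ∃ p q, dist c p = r ∧ dist c q = r ∧ dist p q = 2 * r := by
  have := h.compact
  have hc : IsCompact (closedBall c r) := isClosed_closedBall.isCompact
  have hne : (closedBall c r ×ˢ closedBall c r).Nonempty :=
    ⟨(c, c), by simp [hr.le]⟩
  obtain ⟨⟨p, q⟩, hpq, hmax⟩ := (hc.prod hc).exists_isMaxOn hne
    (f := fun z : T × T => dist z.1 z.2) (by fun_prop)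
  have hp : p ∈ closedBall c r := hpq.1
  have hq : q ∈ closedBall c r := hpq.2
  have h1 : diam (closedBall c r) ≤ dist p q := by
    apply diam_le_of_forall_dist_le dist_nonneg
    intro x hx y hy
    exact hmax (show (x, y) ∈ closedBall c r ×ˢ closedBall c r from ⟨hx, hy⟩)
  rw [hs] at h1
  have hp' : dist c p ≤ r := by rw [dist_comm]; exact hp
  have hq' : dist c q ≤ r := by rw [dist_comm]; exact hq
  have h2 : dist p q ≤ dist c p + dist c q := by
    have := dist_triangle p c q
    rw [dist_comm p c] at this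
    exact this
  exact ⟨p, q, by linarith, by linarith, by linarith⟩

/-- From a centre with a full neighborhood one can move by the radius directly away from any
given point. -/
lemma exists_away (h : IsEmbeddedTree T) {c : T} {r : ℝ} (hr : 0 < r)
    (hs : diam (closedBall c r) = 2 * r) (y : T) :
    ∃ p, dist c p = r ∧ dist p y = r + dist c y := by
  obtain ⟨p, q, hp, hq, hpq⟩ := exists_diametral h hr hs
  have h4 := h.fourPoint p q c y
  rw [hpq, dist_comm p c, dist_comm q c, hp, hq] at h4
  rcases le_max_iff.mp h4 with h5 | h5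
  · refine ⟨q, hq, le_antisymm ?_ (by linarith)⟩
    have := dist_triangle q c y
    rw [dist_comm q c, hq] at this
    exact this
  · refine ⟨p, hp, le_antisymm ?_ (by linarith)⟩
    have := dist_triangle p c y
    rw [dist_comm p c, hp] at this
    exact this

/-- If the ball about `c₂` is not contained in the interior of the ball about `c₁`, there is a
point at distance exactly `r₁` from `c₁` and `|d - r₁|` from `c₂`. -/
lemma exists_beyond (h : IsEmbeddedTree T) {c₁ c₂ : T} {r₁ r₂ : ℝ} (h1 : 0 < r₁) (h2 : 0 < r₂)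
    (hs : diam (closedBall c₂ r₂) = 2 * r₂) (hd : r₁ ≤ dist c₁ c₂ + r₂) :
    ∃ u, dist c₁ u = r₁ ∧ dist c₂ u = |dist c₁ c₂ - r₁| := by
  by_cases hle : r₁ ≤ dist c₁ c₂
  · obtain ⟨u, hu1, hu2⟩ := h.geodesic c₁ c₂ r₁ h1.le hle
    refine ⟨u, hu1, ?_⟩
    rw [dist_comm, hu2, abs_of_nonneg (by linarith)]
  · push Not at hle
    obtain ⟨p, hp1, hp2⟩ := exists_away h h2 hs c₁
    have hc : dist c₂ c₁ = dist c₁ c₂ := dist_comm _ _
    rw [hc] at hp2
    obtain ⟨u, hu1, hu2⟩ := h.geodesic c₂ p (r₁ - dist c₁ c₂) (by linarith) (by linarith)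
    refine ⟨u, ?_, ?_⟩
    · apply le_antisymm
      · have := dist_triangle c₁ c₂ u
        linarith
      · have := dist_triangle c₁ u p
        rw [dist_comm c₁ p] at this
        linarith
    · rw [hu1, abs_of_neg (by linarith)]
      ring

lemma inter_nonempty (h : IsEmbeddedTree T) {c₁ c₂ : T} {r₁ r₂ : ℝ} (h1 : 0 < r₁) (h2 : 0 < r₂)
    (hd : dist c₁ c₂ ≤ r₁ + r₂) : (closedBall c₁ r₁ ∩ closedBall c₂ r₂).Nonempty := by
  by_cases hle : r₁ ≤ dist c₁ c₂
  · obtain ⟨u, hu1, hu2⟩ := h.geodesic c₁ c₂ r₁ h1.le hle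
    refine ⟨u, ?_, ?_⟩
    · rw [mem_closedBall, dist_comm, hu1]
    · rw [mem_closedBall, hu2]
      linarith
  · push Not at hle
    refine ⟨c₂, ?_, ?_⟩
    · rw [mem_closedBall, dist_comm]
      exact hle.le
    · rw [mem_closedBall, dist_self]
      exact h2.le

lemma dist_le_of_inter_nonempty {c₁ c₂ : T} {r₁ r₂ : ℝ}
    (hne : (closedBall c₁ r₁ ∩ closedBall c₂ r₂).Nonempty) : dist c₁ c₂ ≤ r₁ + r₂ := by
  obtain ⟨u, hu1, hu2⟩ := hne
  rw [mem_closedBall] at hu1 hu2
  have := dist_triangle c₁ u c₂
  rw [dist_comm c₁ u] at this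
  linarith

/-- The size of the intersection of two neighborhood subtrees. -/
lemma diam_inter (h : IsEmbeddedTree T) {c₁ c₂ : T} {r₁ r₂ : ℝ} (h1 : 0 < r₁) (h2 : 0 < r₂)
    (hs1 : diam (closedBall c₁ r₁) = 2 * r₁) (hs2 : diam (closedBall c₂ r₂) = 2 * r₂)
    (hd : dist c₁ c₂ ≤ r₁ + r₂) :
    diam (closedBall c₁ r₁ ∩ closedBall c₂ r₂) =
      min (min (2 * r₁) (2 * r₂)) (r₁ + r₂ - dist c₁ c₂) := by
  have hdn : 0 ≤ dist c₁ c₂ := dist_nonneg
  -- containments
  by_cases hc1 : dist c₁ c₂ + r₂ ≤ r₁
  · have hsub : closedBall c₂ r₂ ⊆ closedBall c₁ r₁ := by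
      apply closedBall_subset_closedBall'
      rw [dist_comm]
      linarith
    rw [inter_eq_right.mpr hsub, hs2]
    rw [min_eq_right (by linarith : 2 * r₂ ≤ 2 * r₁), min_eq_left (by linarith)]
  by_cases hc2 : dist c₁ c₂ + r₁ ≤ r₂
  · have hsub : closedBall c₁ r₁ ⊆ closedBall c₂ r₂ := by
      apply closedBall_subset_closedBall'
      linarith
    rw [inter_eq_left.mpr hsub, hs1]
    rw [min_eq_left (by linarith : 2 * r₁ ≤ 2 * r₂), min_eq_left (by linarith)]
  push Not at hc1 hc2
  have hmin : min (min (2 * r₁) (2 * r₂)) (r₁ + r₂ - dist c₁ c₂) = r₁ + r₂ - dist c₁ c₂ := by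
    apply min_eq_right
    apply le_min <;> linarith
  rw [hmin]
  apply le_antisymm
  · apply diam_le_of_forall_dist_le (by linarith)
    rintro p ⟨hp1, hp2⟩ q ⟨hq1, hq2⟩
    rw [mem_closedBall] at hp1 hp2 hq1 hq2
    have h4 := h.fourPoint p q c₁ c₂
    rcases le_max_iff.mp h4 with h5 | h5 <;> linarith
  · obtain ⟨u, hu1, hu2⟩ := exists_beyond h h1 h2 hs2 hc1.le
    have hcomm : dist c₂ c₁ = dist c₁ c₂ := dist_comm _ _
    obtain ⟨v, hv1, hv2⟩ := exists_beyond h h2 h1 hs1 (by rw [hcomm]; exact hc2.le)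
    rw [hcomm] at hv2
    have hu2' : dist c₂ u ≤ r₂ := by
      rw [hu2, abs_le]
      constructor <;> linarith
    have hv2' : dist c₁ v ≤ r₁ := by
      rw [hv2, abs_le]
      constructor <;> linarith
    have hmem_u : u ∈ closedBall c₁ r₁ ∩ closedBall c₂ r₂ := by
      constructor
      · rw [mem_closedBall, dist_comm, hu1]
      · rw [mem_closedBall, dist_comm]
        exact hu2'
    have hmem_v : v ∈ closedBall c₁ r₁ ∩ closedBall c₂ r₂ := by
      constructor
      · rw [mem_closedBall, dist_comm]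
        exact hv2'
      · rw [mem_closedBall, dist_comm, hv1]
    have hb : Bornology.IsBounded (closedBall c₁ r₁ ∩ closedBall c₂ r₂) :=
      isBounded_closedBall.subset inter_subset_left
    refine le_trans ?_ (dist_le_diam_of_mem hb hmem_u hmem_v)
    have h4 := h.fourPoint c₁ u c₂ v
    rw [hu1, hv1, hv2, dist_comm u c₂, hu2] at h4
    rcases le_max_iff.mp h4 with h5 | h5
    · linarith
    · rcases abs_cases (dist c₁ c₂ - r₁) with ⟨e1, g1⟩ | ⟨e1, g1⟩ <;>
      rcases abs_cases (dist c₁ c₂ - r₂) with ⟨e2, g2⟩ | ⟨e2, g2⟩ <;>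
      rw [e1, e2] at h5 <;> have := dist_nonneg (x := u) (y := v) <;> linarith

/-- The adjacency rule of a NeST representation in terms of distances between centres. -/
lemma adj_iff_dist {V : Type} (h : IsEmbeddedTree T) {c : V → T}
    {r t : V → ℝ} (hr : ∀ v, 0 < r v) (ht : ∀ v, 0 < t v)
    (hs : ∀ v, diam (closedBall (c v) (r v)) = 2 * r v) (x y : V) :
    ((closedBall (c x) (r x) ∩ closedBall (c y) (r y)).Nonempty ∧
      min (t x) (t y) ≤ diam (closedBall (c x) (r x) ∩ closedBall (c y) (r y))) ↔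
    min (t x) (t y) ≤ min (min (2 * r x) (2 * r y)) (r x + r y - dist (c x) (c y)) := by
  constructor
  · rintro ⟨hne, hle⟩
    rwa [diam_inter h (hr x) (hr y) (hs x) (hs y) (dist_le_of_inter_nonempty hne)] at hle
  · intro hle
    have hpos : 0 < min (t x) (t y) := lt_min (ht x) (ht y)
    have hd : dist (c x) (c y) ≤ r x + r y := by
      have := hle.trans (min_le_right _ _)
      linarith
    refine ⟨inter_nonempty h (hr x) (hr y) hd, ?_⟩
    rwa [diam_inter h (hr x) (hr y) (hs x) (hs y) hd]

end Tree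

/-! ### The combinatorial obstruction -/

section Obstruction

variable {V : Type}

/-- A symmetric function with the four-point property. -/
structure TreeLike (D : V → V → ℝ) : Prop where
  symm : ∀ x y, D x y = D y x
  four : ∀ x y z w, D x y + D z w ≤ max (D x z + D y w) (D x w + D y z)

/-- The paths `xy` and `zw` are disjoint. -/
structure Split (D : V → V → ℝ) (x y z w : V) : Prop where
  left : D x y + D z w < D x z + D y w
  right : D x y + D z w < D x w + D y z

lemma TreeLike.split {D : V → V → ℝ} (h : TreeLike D) {x y z w : V}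
    (hlt : D x y + D z w < D x w + D z y) : Split D x y z w := by
  have h1 := h.four x w y z
  have e1 := h.symm w z
  have e2 := h.symm w y
  have e3 := h.symm z y
  rw [e1, e2] at h1
  rw [e3] at hlt
  refine ⟨?_, hlt⟩
  rcases le_max_iff.mp h1 with h2 | h2 <;> linarith

/-- Two edges `uw`, `u'w'` without the cross edges `uw'`, `u'w`, both oriented the same way, are
represented by disjoint paths. -/
lemma split_of_edges {D : V → V → ℝ} (h : TreeLike D) {τ : V → ℝ} {u w u' w' : V}
    (h1 : D u w ≤ max (τ u) (τ w)) (h2 : D u' w' ≤ max (τ u') (τ w'))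
    (h3 : max (τ u) (τ w') < D u w') (h4 : max (τ u') (τ w) < D u' w)
    (ho : (τ w ≤ τ u ↔ τ w' ≤ τ u')) : Split D u w u' w' := by
  apply h.split
  rw [max_lt_iff] at h3 h4
  by_cases hc : τ w ≤ τ u
  · have hc' := ho.mp hc
    rw [max_eq_left hc] at h1
    rw [max_eq_left hc'] at h2
    linarith [h3.1, h4.1]
  · have hc' : ¬ τ w' ≤ τ u' := fun e => hc (ho.mpr e)
    push Not at hc hc'
    rw [max_eq_right hc.le] at h1
    rw [max_eq_right hc'.le] at h2
    linarith [h3.2, h4.2]

/-- `x` lies to the left of the cut at position `s` on the path from `p` to `q`. -/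
def LeftOf (D : V → V → ℝ) (p q : V) (s : ℝ) (x : V) : Prop := D x p - D x q < s

lemma dist_across {D : V → V → ℝ} (h : TreeLike D) {p q : V} {s : ℝ} {x y : V}
    (hx : LeftOf D p q s x) (hy : ¬ LeftOf D p q s y) :
    D x y + D p q = D x q + D y p := by
  unfold LeftOf at hx hy
  push Not at hy
  have h1 := h.four x y p q
  have h2 := h.four x q y p
  rw [h.symm q p, h.symm q y] at h2
  apply le_antisymm
  · rcases le_max_iff.mp h1 with h3 | h3 <;> linarith
  · rcases le_max_iff.mp h2 with h3 | h3 <;> linarith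

lemma no_double_cross {D : V → V → ℝ} (h : TreeLike D) {p q : V} {s : ℝ} {x y z w : V}
    (hs : Split D x y z w) (h1 : ¬ (LeftOf D p q s x ↔ LeftOf D p q s y))
    (h2 : ¬ (LeftOf D p q s z ↔ LeftOf D p q s w)) : False := by
  have hl := hs.left
  have hr := hs.right
  have sxy := h.symm x y
  have szw := h.symm z w
  have sxz := h.symm x z
  have sxw := h.symm x w
  have syz := h.symm y z
  have syw := h.symm y w
  by_cases hx : LeftOf D p q s x <;> by_cases hy : LeftOf D p q s y <;>
    by_cases hz : LeftOf D p q s z <;> by_cases hw : LeftOf D p q s w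
  all_goals first
    | exact h1 (iff_of_true hx hy)
    | exact h1 (iff_of_false hx hy)
    | exact h2 (iff_of_true hz hw)
    | exact h2 (iff_of_false hz hw)
    | skip
  -- `x`, `z` left
  · have e1 := dist_across h hx hy
    have e2 := dist_across h hz hw
    have e3 := dist_across h hx hw
    have e4 := dist_across h hz hy
    linarith
  -- `x`, `w` left
  · have e1 := dist_across h hx hy
    have e2 := dist_across h hw hz
    have e3 := dist_across h hx hz
    have e4 := dist_across h hw hy
    linarith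
  -- `y`, `z` left
  · have e1 := dist_across h hy hx
    have e2 := dist_across h hz hw
    have e3 := dist_across h hy hw
    have e4 := dist_across h hz hx
    linarith
  -- `y`, `w` left
  · have e1 := dist_across h hy hx
    have e2 := dist_across h hw hz
    have e3 := dist_across h hy hz
    have e4 := dist_across h hw hx
    linarith

/-- The topological core: a `2 × 3` grid of disjoint paths between two disjoint row subtrees and
three disjoint column subtrees does not exist. -/
lemma no_grid {D : V → V → ℝ} (h : TreeLike D) (a b : Fin 2 → Fin 3 → V) (α : Fin 3 → V)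
    (β : Fin 2 → V)
    (h1 : ∀ i j i' j', j ≠ j' → Split D (a i j) (b i j) (a i' j') (b i' j'))
    (h2 : ∀ j j', Split D (a 0 j) (β 0) (a 1 j') (β 1))
    (h3 : ∀ i j i' j', j ≠ j' → Split D (b i j) (α j) (b i' j') (α j')) : False := by
  -- the cut
  obtain ⟨j₀, hj₀⟩ := Finite.exists_min (fun j => D (a 1 j) (β 0) - D (a 1 j) (β 1))
  set s := D (a 1 j₀) (β 0) - D (a 1 j₀) (β 1) with hs
  have hL : ∀ j, LeftOf D (β 0) (β 1) s (a 0 j) := by
    intro j
    have := (h2 j j₀).right
    have e1 := h.symm (β 0) (a 1 j₀)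
    unfold LeftOf
    rw [hs]
    linarith
  have hR : ∀ j, ¬ LeftOf D (β 0) (β 1) s (a 1 j) := by
    intro j
    unfold LeftOf
    push Not
    exact hj₀ j
  set L : V → Prop := LeftOf D (β 0) (β 1) s with hLdef
  -- a column whose two `b` vertices lie on one side contains a crossing path
  have cross1 : ∀ j, (L (b 0 j) ↔ L (b 1 j)) → ∃ i, ¬ (L (a i j) ↔ L (b i j)) := by
    intro j hj
    by_cases hb : L (b 0 j)
    · refine ⟨1, fun e => hR j (e.mpr (hj.mp hb))⟩
    · refine ⟨0, fun e => hb (e.mp (hL j))⟩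
  have cross2 : ∀ j, ¬ (L (b 0 j) ↔ L (b 1 j)) → ∃ i, ¬ (L (b i j) ↔ L (α j)) := by
    intro j hj
    by_contra hno
    push Not at hno
    exact hj ((hno 0).trans (hno 1).symm)
  have same_unique : ∀ j j', j ≠ j' → (L (b 0 j) ↔ L (b 1 j)) → (L (b 0 j') ↔ L (b 1 j')) →
      False := by
    intro j j' hne hj hj'
    obtain ⟨i, hi⟩ := cross1 j hj
    obtain ⟨i', hi'⟩ := cross1 j' hj'
    exact no_double_cross h (h1 i j i' j' hne) hi hi'
  have diff_unique : ∀ j j', j ≠ j' → ¬ (L (b 0 j) ↔ L (b 1 j)) → ¬ (L (b 0 j') ↔ L (b 1 j')) →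
      False := by
    intro j j' hne hj hj'
    obtain ⟨i, hi⟩ := cross2 j hj
    obtain ⟨i', hi'⟩ := cross2 j' hj'
    exact no_double_cross h (h3 i j i' j' hne) hi hi'
  have n01 : (0 : Fin 3) ≠ 1 := by decide
  have n02 : (0 : Fin 3) ≠ 2 := by decide
  have n12 : (1 : Fin 3) ≠ 2 := by decide
  by_cases c0 : (L (b 0 0) ↔ L (b 1 0)) <;> by_cases c1 : (L (b 0 1) ↔ L (b 1 1)) <;>
    by_cases c2 : (L (b 0 2) ↔ L (b 1 2))
  · exact same_unique 0 1 n01 c0 c1
  · exact same_unique 0 1 n01 c0 c1
  · exact same_unique 0 2 n02 c0 c2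
  · exact diff_unique 1 2 n12 c1 c2
  · exact same_unique 1 2 n12 c1 c2
  · exact diff_unique 0 2 n02 c0 c2
  · exact diff_unique 0 1 n01 c0 c1
  · exact diff_unique 0 1 n01 c0 c1

/-- The pigeonhole step: in a large grid of edges with the given pattern of non-edges one finds a
`2 × 3` subgrid in which all orientations agree. -/
lemma no_big_grid {D : V → V → ℝ} (h : TreeLike D) {τ : V → ℝ} {p q : ℕ} (hp : 8 < p)
    (hq : p * (p * 8) * 2 < q) (a b : Fin p → Fin q → V) (α : Fin q → V) (β : Fin p → V)
    (hab : ∀ i j, D (a i j) (b i j) ≤ max (τ (a i j)) (τ (b i j)))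
    (hab' : ∀ i j i' j', j ≠ j' → max (τ (a i j)) (τ (b i' j')) < D (a i j) (b i' j'))
    (haβ : ∀ i j, D (a i j) (β i) ≤ max (τ (a i j)) (τ (β i)))
    (haβ' : ∀ i j i', i ≠ i' → max (τ (a i j)) (τ (β i')) < D (a i j) (β i'))
    (hbα : ∀ i j, D (b i j) (α j) ≤ max (τ (b i j)) (τ (α j)))
    (hbα' : ∀ i j j', j ≠ j' → max (τ (b i j)) (τ (α j')) < D (b i j) (α j')) : False := by
  classical
  let color : Fin p → Fin q → Bool × Bool × Bool := fun i j =>
    (decide (τ (b i j) ≤ τ (a i j)), decide (τ (β i) ≤ τ (a i j)), decide (τ (α j) ≤ τ (b i j)))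
  have step1 : ∀ j, ∃ i i', i ≠ i' ∧ color i j = color i' j := by
    intro j
    apply Fintype.exists_ne_map_eq_of_card_lt (fun i => color i j)
    simpa using hp
  choose r₁ r₂ hne heq using step1
  let F : Fin q → Fin p × Fin p × (Bool × Bool × Bool) := fun j => (r₁ j, r₂ j, color (r₁ j) j)
  obtain ⟨⟨x, y, κ⟩, hy⟩ := Fintype.exists_lt_card_fiber_of_mul_lt_card F (n := 2)
    (by simpa using hq)
  obtain ⟨j₁, m₁, j₂, m₂, j₃, m₃, n12, n13, n23⟩ := Finset.two_lt_card.mp hy
  simp only [Finset.mem_filter, Finset.mem_univ, true_and, F, Prod.mk.injEq] at m₁ m₂ m₃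
  let row : Fin 2 → Fin p := ![x, y]
  let col : Fin 3 → Fin q := ![j₁, j₂, j₃]
  have hrow : row 0 ≠ row 1 := by
    have := hne j₁
    rw [m₁.1, m₁.2.1] at this
    exact this
  have hcol : ∀ j j', j ≠ j' → col j ≠ col j' := by
    intro j j' hjj
    have c0 : col 0 = j₁ := rfl
    have c1 : col 1 = j₂ := rfl
    have c2 : col 2 = j₃ := rfl
    fin_cases j <;> fin_cases j'
    · exact absurd rfl hjj
    · exact n12
    · exact n13
    · exact n12.symm
    · exact absurd rfl hjj
    · exact n23
    · exact n13.symm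
    · exact n23.symm
    · exact absurd rfl hjj
  have hc : ∀ j, color x (col j) = κ ∧ color y (col j) = κ := by
    intro j
    fin_cases j
    · have e := heq j₁
      rw [m₁.1, m₁.2.1] at e
      have e2 := m₁.2.2
      rw [m₁.1] at e2
      exact ⟨e2, e.symm.trans e2⟩
    · have e := heq j₂
      rw [m₂.1, m₂.2.1] at e
      have e2 := m₂.2.2
      rw [m₂.1] at e2
      exact ⟨e2, e.symm.trans e2⟩
    · have e := heq j₃
      rw [m₃.1, m₃.2.1] at e
      have e2 := m₃.2.2
      rw [m₃.1] at e2
      exact ⟨e2, e.symm.trans e2⟩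
  have hcolor : ∀ i j, color (row i) (col j) = κ := by
    intro i j
    fin_cases i
    · exact (hc j).1
    · exact (hc j).2
  have same : ∀ i j i' j', color (row i) (col j) = color (row i') (col j') := by
    intro i j i' j'
    rw [hcolor, hcolor]
  refine no_grid h (fun i j => a (row i) (col j)) (fun i j => b (row i) (col j))
    (fun j => α (col j)) (fun i => β (row i)) ?_ ?_ ?_
  · intro i j i' j' hjj
    have hs := same i j i' j'
    simp only [color, Prod.mk.injEq, decide_eq_decide] at hs
    exact split_of_edges h (hab _ _) (hab _ _) (hab' _ _ _ _ (hcol j j' hjj))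
      (hab' _ _ _ _ (hcol j' j hjj.symm)) hs.1
  · intro j j'
    have hs := same 0 j 1 j'
    simp only [color, Prod.mk.injEq, decide_eq_decide] at hs
    exact split_of_edges h (haβ _ _) (haβ _ _) (haβ' _ _ _ hrow) (haβ' _ _ _ hrow.symm) hs.2.1
  · intro i j i' j' hjj
    have hs := same i j i' j'
    simp only [color, Prod.mk.injEq, decide_eq_decide] at hs
    exact split_of_edges h (hbα _ _) (hbα _ _) (hbα' _ _ _ (hcol j j' hjj))
      (hbα' _ _ _ (hcol j' j hjj.symm)) hs.2.2

end Obstruction

/-! ### The grid graph -/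

/-- Vertices of the grid graph: the clique consists of the `a i j` and `α j`, the independent set of
the `b i j` and `β i`. -/
inductive Vtx (p q : ℕ) : Type
  | a (i : Fin p) (j : Fin q) : Vtx p q
  | b (i : Fin p) (j : Fin q) : Vtx p q
  | α (j : Fin q) : Vtx p q
  | β (i : Fin p) : Vtx p q
  deriving DecidableEq, Fintype

/-- The (one-sided) relation generating the adjacency of the grid graph. -/
def link {p q : ℕ} : Vtx p q → Vtx p q → Prop
  | .a _ _, .a _ _ => True
  | .a _ _, .α _ => True
  | .α _, .α _ => True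
  | .a i j, .b i' j' => i = i' ∧ j = j'
  | .a i _, .β i' => i = i'
  | .α j, .b _ j' => j = j'
  | .α _, .β _ => True
  | _, _ => False

/-- The grid graph: a split graph with clique `{a i j} ∪ {α j}` and independent set
`{b i j} ∪ {β i}`, where `a i j` is joined to `b i j` and `β i`, and `α j` is joined to all
`b i j` and to all `β i`. -/
def gridGraph (p q : ℕ) : SimpleGraph (Vtx p q) := SimpleGraph.fromRel link

/-- A bounded NeST representation yields a tree-like function `D` and `τ` with
`x ~ y ↔ D x y ≤ max (τ x) (τ y)`. -/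
lemma bounded_rep {V T : Type} [MetricSpace T] {G : SimpleGraph V} (hT : IsEmbeddedTree T)
    {c : V → T} {r t : V → ℝ} (hr : ∀ v, 0 < r v) (ht : ∀ v, 0 < t v)
    (hs : ∀ v, diam (closedBall (c v) (r v)) = 2 * r v)
    (hadj : ∀ x y, x ≠ y → (G.Adj x y ↔
      (closedBall (c x) (r x) ∩ closedBall (c y) (r y)).Nonempty ∧
        min (t x) (t y) ≤ diam (closedBall (c x) (r x) ∩ closedBall (c y) (r y))))
    (hb : ∀ v, t v ≤ 2 * r v) :
    ∃ (D : V → V → ℝ) (τ : V → ℝ), TreeLike D ∧
      ∀ x y, x ≠ y → (G.Adj x y ↔ D x y ≤ max (τ x) (τ y)) := by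
  refine ⟨fun x y => dist (c x) (c y) - r x - r y, fun x => - t x, ⟨?_, ?_⟩, ?_⟩
  · intro x y
    change dist (c x) (c y) - r x - r y = dist (c y) (c x) - r y - r x
    rw [dist_comm (c x) (c y)]
    ring
  · intro x y z w
    have h4 := hT.fourPoint (c x) (c y) (c z) (c w)
    rcases le_max_iff.mp h4 with h5 | h5
    · apply le_max_of_le_left
      linarith
    · apply le_max_of_le_right
      linarith
  · intro x y hxy
    rw [hadj x y hxy, adj_iff_dist hT hr ht hs x y]
    have bx := hb x
    have by' := hb y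
    constructor
    · intro h
      have h1 := h.trans (min_le_right _ _)
      rcases min_le_iff.mp h1 with h2 | h2
      · apply le_max_of_le_left
        linarith
      · apply le_max_of_le_right
        linarith
    · intro h
      have h0 : min (t x) (t y) ≤ r x + r y - dist (c x) (c y) := by
        rcases le_max_iff.mp h with h2 | h2
        · exact (min_le_left _ _).trans (by linarith)
        · exact (min_le_right _ _).trans (by linarith)
      exact le_min (le_min ((min_le_left _ _).trans bx) ((min_le_right _ _).trans by')) h0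

lemma adj_ab {p q : ℕ} (i : Fin p) (j : Fin q) (i' : Fin p) (j' : Fin q) :
    (gridGraph p q).Adj (.a i j) (.b i' j') ↔ i = i' ∧ j = j' := by
  simp [gridGraph, link]

lemma adj_aβ {p q : ℕ} (i : Fin p) (j : Fin q) (i' : Fin p) :
    (gridGraph p q).Adj (.a i j) (.β i') ↔ i = i' := by
  simp [gridGraph, link]

lemma adj_bα {p q : ℕ} (i : Fin p) (j : Fin q) (j' : Fin q) :
    (gridGraph p q).Adj (.b i j) (.α j') ↔ j' = j := by
  simp [gridGraph, link]

/-- No function pair as in `bounded_rep` exists for a large grid graph. -/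
lemma grid_no_rep {p q : ℕ} (hp : 8 < p) (hq : p * (p * 8) * 2 < q)
    (D : Vtx p q → Vtx p q → ℝ) (τ : Vtx p q → ℝ) (hD : TreeLike D)
    (hadj : ∀ x y, x ≠ y → ((gridGraph p q).Adj x y ↔ D x y ≤ max (τ x) (τ y))) : False := by
  refine no_big_grid hD hp hq (τ := τ) (fun i j => .a i j) (fun i j => .b i j) (fun j => .α j)
    (fun i => .β i) ?_ ?_ ?_ ?_ ?_ ?_
  · intro i j
    exact (hadj _ _ (by simp)).mp ((adj_ab _ _ _ _).mpr ⟨rfl, rfl⟩)
  · intro i j i' j' hjj
    have := (hadj (.a i j) (.b i' j') (by simp)).not.mp (fun e => hjj ((adj_ab _ _ _ _).mp e).2)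
    exact not_le.mp this
  · intro i j
    exact (hadj _ _ (by simp)).mp ((adj_aβ _ _ _).mpr rfl)
  · intro i j i' hii
    have := (hadj (.a i j) (.β i') (by simp)).not.mp (fun e => hii ((adj_aβ _ _ _).mp e))
    exact not_le.mp this
  · intro i j
    exact (hadj _ _ (by simp)).mp ((adj_bα _ _ _).mpr rfl)
  · intro i j j' hjj
    have := (hadj (.b i j) (.α j') (by simp)).not.mp (fun e => hjj ((adj_bα _ _ _).mp e).symm)
    exact not_le.mp this

/-- Large grid graphs are not bounded NeST graphs. -/
theorem gridGraph_not_bounded {p q : ℕ} (hp : 8 < p) (hq : p * (p * 8) * 2 < q) :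
    ¬ IsBoundedNeST (gridGraph p q) := by
  rintro ⟨T, _, hT, c, r, t, hrep, hb⟩
  obtain ⟨D, τ, hD, hadj⟩ := bounded_rep hT hrep.radius_pos hrep.tolerance_pos hrep.size
    hrep.adj_iff hb
  exact grid_no_rep hp hq D τ hD hadj

end Pool.Agent.Helper997.NeST
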