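import Mathlib

/-!
The metric of a tree: four-point condition, parity, convexity of subtrees.
-/

namespace Pool.Agent.Helper997.TreeMetric

variable {W : Type} {T : SimpleGraph W}

lemma unique_closer (hT : T.IsTree) {x v v' v'' : W} (h1 : T.Adj v' v) (h2 : T.Adj v'' v)
    (d1 : T.dist x v = T.dist x v' + 1) (d2 : T.dist x v = T.dist x v'' + 1) : v' = v'' := by
  obtain ⟨p, hp, hp'⟩ := hT.connected.exists_path_of_dist x v'
  obtain ⟨q, hq, hq'⟩ := hT.connected.exists_path_of_dist x v''
  have e1 : (p.concat h1).IsPath := by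
    apply SimpleGraph.Walk.isPath_of_length_eq_dist
    rw [SimpleGraph.Walk.length_concat, hp', d1]
  have e2 : (q.concat h2).IsPath := by
    apply SimpleGraph.Walk.isPath_of_length_eq_dist
    rw [SimpleGraph.Walk.length_concat, hq', d2]
  have e3 := (hT.existsUnique_path x v).unique e1 e2
  have e4 := congrArg SimpleGraph.Walk.penultimate e3
  simpa using e4

lemma exists_step (hc : T.Connected) {x y : W} {n : ℕ} (h : T.dist x y = n + 1) :
    ∃ x', T.Adj x x' ∧ T.dist x' y = n := by
  obtain ⟨p, hp⟩ := hc.exists_walk_length_eq_dist x y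
  cases p with
  | nil =>
    rw [SimpleGraph.dist_self] at h
    omega
  | cons hadj q =>
    rename_i x'
    refine ⟨x', hadj, ?_⟩
    have h1 : T.dist x' y ≤ n := by
      have := SimpleGraph.dist_le q
      simp only [SimpleGraph.Walk.length_cons] at hp
      omega
    have h2 : T.dist x y ≤ T.dist x x' + T.dist x' y := hc.dist_triangle
    have h3 : T.dist x x' = 1 := SimpleGraph.dist_eq_one_iff_adj.mpr hadj
    omega

lemma step_cases (hT : T.IsTree) (z : W) {x x' : W} (h : T.Adj x x') :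
    T.dist x z = T.dist x' z + 1 ∨ T.dist x' z = T.dist x z + 1 := by
  have := hT.dist_eq_dist_add_one_of_adj z h
  rw [SimpleGraph.dist_comm (u := x), SimpleGraph.dist_comm (u := x')]
  exact this

/-- If `y` is on the side of `x'` and `z` on the side of `x` of the edge `x x'`, the path from `y`
to `z` passes through the edge. -/
lemma through_edge (hT : T.IsTree) {x x' z : W} (h : T.Adj x x')
    (h2 : T.dist x' z = T.dist x z + 1) : ∀ (n : ℕ) (y : W), T.dist y z = n →
    T.dist x y = T.dist x' y + 1 → T.dist y z = T.dist x y + T.dist x z := by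
  intro n
  induction n with
  | zero =>
    intro y hy h1
    have : y = z := hT.connected.dist_eq_zero_iff.mp hy
    subst this
    omega
  | succ n ih =>
    intro y hy h1
    obtain ⟨y1, hadj, hy1⟩ := exists_step hT.connected hy
    have tri : T.dist y z ≤ T.dist y x + T.dist x z := hT.connected.dist_triangle
    rw [SimpleGraph.dist_comm (u := y) (v := x)] at tri
    have exy : T.dist x x' = 1 := SimpleGraph.dist_eq_one_iff_adj.mpr h
    have eyy : T.dist y y1 = 1 := SimpleGraph.dist_eq_one_iff_adj.mpr hadj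
    rcases step_cases hT y1 h with hc | hc
    · -- `y1` is still on the side of `x'`
      have := ih y1 hy1 hc
      have t1 : T.dist x y ≤ T.dist x y1 + T.dist y1 y := hT.connected.dist_triangle
      rw [SimpleGraph.dist_comm (u := y1) (v := y), eyy] at t1
      omega
    · -- crossing
      have t1 : T.dist x y ≤ T.dist x y1 + T.dist y1 y := hT.connected.dist_triangle
      have t2 : T.dist x' y1 ≤ T.dist x' y + T.dist y y1 := hT.connected.dist_triangle
      rw [SimpleGraph.dist_comm (u := y1) (v := y), eyy] at t1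
      rw [eyy] at t2
      have em : T.dist x y1 = T.dist x' y := by omega
      rcases Nat.eq_zero_or_pos (T.dist x' y) with h0 | hpos
      · have e1 : x' = y := hT.connected.dist_eq_zero_iff.mp h0
        have e2 : x = y1 := by
          apply hT.connected.dist_eq_zero_iff.mp
          omega
        subst e1 e2
        omega
      · exfalso
        obtain ⟨m, hm⟩ : ∃ m, T.dist y x' = m + 1 := ⟨T.dist y x' - 1, by
          rw [SimpleGraph.dist_comm (u := y)]; omega⟩
        obtain ⟨y2, hadj2, hy2⟩ := exists_step hT.connected hm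
        have hm' : T.dist x' y = m + 1 := by rw [SimpleGraph.dist_comm]; exact hm
        have hy2' : T.dist x' y2 = m := by rw [SimpleGraph.dist_comm]; exact hy2
        have eyy2 : T.dist y y2 = 1 := SimpleGraph.dist_eq_one_iff_adj.mpr hadj2
        have t3 : T.dist x y2 ≤ T.dist x x' + T.dist x' y2 := hT.connected.dist_triangle
        have t4 : T.dist x y ≤ T.dist x y2 + T.dist y2 y := hT.connected.dist_triangle
        rw [SimpleGraph.dist_comm (u := y2) (v := y), eyy2] at t4
        have : y1 = y2 := by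
          apply unique_closer hT hadj.symm hadj2.symm (x := x)
          · omega
          · omega
        subst this
        omega

/-- The four-point condition for the distance of a tree. -/
lemma four_point (hT : T.IsTree) : ∀ (n : ℕ) (x y z w : W), T.dist x y = n →
    T.dist x y + T.dist z w ≤ T.dist x z + T.dist y w ∨
    T.dist x y + T.dist z w ≤ T.dist x w + T.dist y z := by
  intro n
  induction n with
  | zero =>
    intro x y z w hxy
    have : x = y := hT.connected.dist_eq_zero_iff.mp hxy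
    subst this
    have t : T.dist z w ≤ T.dist z x + T.dist x w := hT.connected.dist_triangle
    rw [SimpleGraph.dist_comm (u := z) (v := x)] at t
    left
    omega
  | succ n ih =>
    intro x y z w hxy
    obtain ⟨x', hadj, hx'⟩ := exists_step hT.connected hxy
    have key : ∀ z w, T.dist x' z = T.dist x z + 1 → T.dist x y + T.dist z w ≤
        T.dist x w + T.dist y z := by
      intro z w hz
      have h1 : T.dist x y = T.dist x' y + 1 := by omega
      have := through_edge hT hadj hz _ y rfl h1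
      have t : T.dist z w ≤ T.dist z x + T.dist x w := hT.connected.dist_triangle
      rw [SimpleGraph.dist_comm (u := z) (v := x)] at t
      omega
    rcases step_cases hT z hadj with hz | hz
    · rcases step_cases hT w hadj with hw | hw
      · rcases ih x' y z w hx' with h | h
        · left; omega
        · right; omega
      · left
        have := key w z hw
        rw [SimpleGraph.dist_comm (u := w) (v := z)] at this
        exact this
    · right
      exact key z w hz

lemma parity (hT : T.IsTree) : ∀ (n : ℕ) (x y z : W), T.dist x y = n →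
    (T.dist x y + T.dist y z + T.dist x z) % 2 = 0 := by
  intro n
  induction n with
  | zero =>
    intro x y z hxy
    have : x = y := hT.connected.dist_eq_zero_iff.mp hxy
    subst this
    omega
  | succ n ih =>
    intro x y z hxy
    obtain ⟨x', hadj, hx'⟩ := exists_step hT.connected hxy
    have := ih x' y z hx'
    rcases step_cases hT z hadj with hz | hz <;> omega

lemma exists_between (hc : T.Connected) (x y : W) {t : ℕ} (ht : t ≤ T.dist x y) :
    ∃ z, T.dist x z = t ∧ T.dist z y = T.dist x y - t := by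
  obtain ⟨p, hp⟩ := hc.exists_walk_length_eq_dist x y
  refine ⟨p.getVert t, ?_⟩
  have h1 : T.dist x (p.getVert t) ≤ t := by
    have := SimpleGraph.dist_le (p.take t)
    rw [SimpleGraph.Walk.take_length] at this
    omega
  have h2 : T.dist (p.getVert t) y ≤ T.dist x y - t := by
    have := SimpleGraph.dist_le (p.drop t)
    rw [SimpleGraph.Walk.drop_length] at this
    omega
  have h3 : T.dist x y ≤ T.dist x (p.getVert t) + T.dist (p.getVert t) y := hc.dist_triangle
  omega

/-- Connected vertex sets of a tree are convex. -/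
lemma convex_of_connected (hT : T.IsTree) {S : Set W} (hS : (T.induce S).Connected) {x y z : W}
    (hx : x ∈ S) (hy : y ∈ S) (hz : T.dist x z + T.dist z y = T.dist x y) : z ∈ S := by
  classical
  obtain ⟨p, hp⟩ := hT.connected.exists_walk_length_eq_dist x z
  obtain ⟨q, hq⟩ := hT.connected.exists_walk_length_eq_dist z y
  have e1 : (p.append q).IsPath := by
    apply SimpleGraph.Walk.isPath_of_length_eq_dist
    rw [SimpleGraph.Walk.length_append, hp, hq, hz]
  obtain ⟨r⟩ := hS.preconnected ⟨x, hx⟩ ⟨y, hy⟩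
  let r' : T.Walk x y := r.map (SimpleGraph.Embedding.induce S).toHom
  have e2 : r'.bypass.IsPath := SimpleGraph.Walk.bypass_isPath _
  have e3 := (hT.existsUnique_path x y).unique e1 e2
  have h1 : z ∈ (p.append q).support := by
    rw [SimpleGraph.Walk.mem_support_append_iff]
    left
    exact SimpleGraph.Walk.end_mem_support p
  rw [e3] at h1
  have h2 : z ∈ (r.map (SimpleGraph.Embedding.induce S).toHom).support :=
    SimpleGraph.Walk.support_bypass_subset_support _ h1
  rw [SimpleGraph.Walk.support_map] at h2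
  obtain ⟨w, _, hw⟩ := List.mem_map.mp h2
  rw [← hw]
  exact w.2

/-! ### Integral tree metrics -/

/-- Integral tree metrics. -/
structure TD (d : W → W → ℕ) : Prop where
  self : ∀ x, d x x = 0
  eq_of : ∀ x y, d x y = 0 → x = y
  symm : ∀ x y, d x y = d y x
  tri : ∀ x y z, d x z ≤ d x y + d y z
  four : ∀ x y z w, d x y + d z w ≤ d x z + d y w ∨ d x y + d z w ≤ d x w + d y z
  par : ∀ x y z, (d x y + d y z + d x z) % 2 = 0
  btw : ∀ x y t, t ≤ d x y → ∃ z, d x z = t ∧ d z y = d x y - t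

lemma td_of_tree (hT : T.IsTree) : TD T.dist where
  self _ := SimpleGraph.dist_self
  eq_of _ _ h := hT.connected.dist_eq_zero_iff.mp h
  symm _ _ := SimpleGraph.dist_comm
  tri _ _ _ := hT.connected.dist_triangle
  four x y z w := four_point hT _ x y z w rfl
  par x y z := parity hT _ x y z rfl
  btw x y _ ht := exists_between hT.connected x y ht

/-- Convex sets. -/
def Cvx (d : W → W → ℕ) (S : Set W) : Prop :=
  ∀ x ∈ S, ∀ y ∈ S, ∀ z, d x z + d z y = d x y → z ∈ S

/-- Segments. -/
def Seg (d : W → W → ℕ) (x y : W) : Set W := {z | d x z + d z y = d x y}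

section Line

variable {d : W → W → ℕ} {x₀ y₀ : W}

/-- The position of the projection of `v` to the segment from `x₀` to `y₀`. -/
def pos (d : W → W → ℕ) (x₀ y₀ v : W) : ℕ := (d x₀ v + d x₀ y₀ - d v y₀) / 2

lemma pos_spec (h : TD d) (v : W) : 2 * pos d x₀ y₀ v + d v y₀ = d x₀ v + d x₀ y₀ := by
  have h1 := h.par x₀ v y₀
  have h2 := h.tri v x₀ y₀
  have h3 := h.symm x₀ v
  unfold pos
  omega

lemma pos_le (h : TD d) (v : W) : pos d x₀ y₀ v ≤ d x₀ y₀ := by
  have h1 := pos_spec (x₀ := x₀) (y₀ := y₀) h v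
  have h2 := h.tri x₀ y₀ v
  have h3 := h.symm y₀ v
  omega

/-- `p` parametrises the segment from `x₀` to `y₀`. -/
def Param (d : W → W → ℕ) (x₀ y₀ : W) (p : ℕ → W) : Prop :=
  ∀ t, t ≤ d x₀ y₀ → d x₀ (p t) = t ∧ d (p t) y₀ = d x₀ y₀ - t

lemma exists_param (h : TD d) (x₀ y₀ : W) : ∃ p, Param d x₀ y₀ p := by
  have hex : ∀ t, ∃ z, t ≤ d x₀ y₀ → d x₀ z = t ∧ d z y₀ = d x₀ y₀ - t := by
    intro t
    by_cases ht : t ≤ d x₀ y₀
    · obtain ⟨z, hz⟩ := h.btw x₀ y₀ t ht
      exact ⟨z, fun _ => hz⟩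
    · exact ⟨x₀, fun e => absurd e ht⟩
  choose p hp using hex
  exact ⟨p, hp⟩

lemma pos_param (h : TD d) {p : ℕ → W} (hp : Param d x₀ y₀ p) {t : ℕ} (ht : t ≤ d x₀ y₀) :
    pos d x₀ y₀ (p t) = t := by
  have h1 := pos_spec (x₀ := x₀) (y₀ := y₀) h (p t)
  obtain ⟨h2, h3⟩ := hp t ht
  omega

lemma param_mem (h : TD d) {p : ℕ → W} (hp : Param d x₀ y₀ p) {z : W} (hz : z ∈ Seg d x₀ y₀) :
    z = p (pos d x₀ y₀ z) := by
  have h1 := pos_spec (x₀ := x₀) (y₀ := y₀) h z
  have hz' : d x₀ z + d z y₀ = d x₀ y₀ := hz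
  have h2 : pos d x₀ y₀ z = d x₀ z := by omega
  obtain ⟨h3, h4⟩ := hp (pos d x₀ y₀ z) (pos_le h z)
  apply h.eq_of
  have h5 := h.symm z x₀
  have h6 := h.symm (p (pos d x₀ y₀ z)) x₀
  rcases h.four z (p (pos d x₀ y₀ z)) x₀ y₀ with h7 | h7 <;> omega

/-- A convex set with two points projecting to different positions contains the part of the
segment in between. -/
lemma retract (h : TD d) {p : ℕ → W} (hp : Param d x₀ y₀ p) {C : Set W} (hC : Cvx d C) {u v : W}
    (hu : u ∈ C) (hv : v ∈ C) (huv : pos d x₀ y₀ u < pos d x₀ y₀ v) {t : ℕ}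
    (h1 : pos d x₀ y₀ u ≤ t) (h2 : t ≤ pos d x₀ y₀ v) : p t ∈ C := by
  have hn := pos_le (x₀ := x₀) (y₀ := y₀) h v
  have pu := pos_spec (x₀ := x₀) (y₀ := y₀) h u
  have pv := pos_spec (x₀ := x₀) (y₀ := y₀) h v
  obtain ⟨e1, e2⟩ := hp t (by omega)
  apply hC u hu v hv
  have s1 := h.symm u x₀
  have s2 := h.symm v x₀
  have s3 := h.symm (p t) x₀
  have s4 := h.symm (p t) v
  have s5 := h.symm x₀ y₀
  have s6 := h.symm y₀ v
  have t1 := h.tri u (p t) v
  have f1 := h.four u (p t) x₀ y₀
  have f2 := h.four v (p t) x₀ y₀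
  have f3 := h.four u y₀ v x₀
  omega

/-- The trace of a convex set on a segment, if it has at least five elements. -/
lemma exists_block (h : TD d) {p : ℕ → W} (hp : Param d x₀ y₀ p) {C : Set W} (hC : Cvx d C)
    (hbig : 5 ≤ (Seg d x₀ y₀ ∩ C).encard) :
    ∃ l r, l + 4 ≤ r ∧ r ≤ d x₀ y₀ ∧ (∀ t, l ≤ t → t ≤ r → p t ∈ C) ∧
      ∀ v ∈ C, l ≤ pos d x₀ y₀ v ∧ pos d x₀ y₀ v ≤ r := by
  classical
  let A : Finset ℕ := (Finset.range (d x₀ y₀ + 1)).filter (fun t => p t ∈ C)
  have hA : ∀ t, t ∈ A ↔ t ≤ d x₀ y₀ ∧ p t ∈ C := by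
    intro t
    simp only [A, Finset.mem_filter, Finset.mem_range]
    constructor
    · rintro ⟨a, b⟩; exact ⟨by omega, b⟩
    · rintro ⟨a, b⟩; exact ⟨by omega, b⟩
  have hsub : (Seg d x₀ y₀ ∩ C) ⊆ p '' (A : Set ℕ) := by
    rintro z ⟨hz, hzC⟩
    have e := param_mem h hp hz
    refine ⟨pos d x₀ y₀ z, ?_, e.symm⟩
    rw [Finset.mem_coe, hA]
    exact ⟨pos_le h z, e ▸ hzC⟩
  have hcard : 5 ≤ A.card := by
    have h1 := (Set.encard_le_encard hsub).trans (Set.encard_image_le p (A : Set ℕ))
    rw [Set.encard_coe_eq_coe_finsetCard] at h1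
    have h2 := hbig.trans h1
    exact_mod_cast h2
  have hne : A.Nonempty := by
    rw [← Finset.card_pos]
    omega
  have hl := A.min'_mem hne
  have hr := A.max'_mem hne
  rw [hA] at hl hr
  have hlr : A.min' hne + 4 ≤ A.max' hne := by
    by_contra hlt
    have hs : A ⊆ Finset.Icc (A.min' hne) (A.min' hne + 3) := by
      intro t ht
      rw [Finset.mem_Icc]
      have h1 := A.min'_le t ht
      have h2 := A.le_max' t ht
      omega
    have h1 := Finset.card_le_card hs
    rw [Nat.card_Icc] at h1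
    omega
  have pl := pos_param h hp hl.1
  have pr := pos_param h hp hr.1
  refine ⟨A.min' hne, A.max' hne, hlr, hr.1, ?_, ?_⟩
  · intro t h1 h2
    exact retract h hp hC hl.2 hr.2 (by omega) (by omega) (by omega)
  · intro v hv
    constructor
    · by_contra hlt
      have hmem : p (pos d x₀ y₀ v) ∈ C :=
        retract h hp hC hv hl.2 (by omega) le_rfl (by omega)
      have := A.min'_le _ ((hA _).mpr ⟨pos_le h v, hmem⟩)
      omega
    · by_contra hlt
      have hmem : p (pos d x₀ y₀ v) ∈ C :=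
        retract h hp hC hr.2 hv (by omega) (by omega) le_rfl
      have := A.le_max' _ ((hA _).mpr ⟨pos_le h v, hmem⟩)
      omega

/-- A set containing a run of five consecutive points of a segment has at least five elements. -/
lemma big_of_run (h : TD d) {p : ℕ → W} (hp : Param d x₀ y₀ p) {C : Set W} {l : ℕ}
    (hl : l + 4 ≤ d x₀ y₀) (hC : ∀ t, l ≤ t → t ≤ l + 4 → p t ∈ C) : 5 ≤ C.encard := by
  have hinj : Set.InjOn p (Set.Icc l (l + 4)) := by
    intro s hs t ht e
    have h1 := pos_param h hp (t := s) (by have := hs.2; omega)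
    have h2 := pos_param h hp (t := t) (by have := ht.2; omega)
    rw [e] at h1
    omega
  have hsub : p '' (Set.Icc l (l + 4)) ⊆ C := by
    rintro z ⟨t, ht, rfl⟩
    exact hC t ht.1 ht.2
  have h1 := Set.encard_le_encard hsub
  rw [hinj.encard_image] at h1
  have h2 : (Set.Icc l (l + 4)).encard = 5 := by
    have : (Set.Icc l (l + 4)) = ((Finset.Icc l (l + 4) : Finset ℕ) : Set ℕ) := by
      simp
    rw [this, Set.encard_coe_eq_coe_finsetCard, Nat.card_Icc]
    have : l + 4 + 1 - l = 5 := by omega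
    rw [this]
    rfl
  rw [h2] at h1
  exact h1

/-- The anchor lemma. `P b` are the paths of a leg `ℓ`, `Q` the other paths, `τ` the markers of the
leg. There is an edge `a a'` on all `P b` such that all `Q` lie on the side of `a'`. -/
lemma anchor (h : TD d) {Λ : Type} (ℓ : Λ) (P : Λ → Λ → Set W) (hsymm : ∀ a b, P a b = P b a)
    (hcvx : ∀ a b, Cvx d (P a b)) (b₀ : Λ) (hb₀ : b₀ ≠ ℓ) (hP₀ : P ℓ b₀ = Seg d x₀ y₀)
    (hmeet : ∀ c e e', c ≠ e → c ≠ e' → (P c e ∩ P c e').Nonempty)
    (τ : Fin 17 → Set W) (hτcvx : ∀ i, Cvx d (τ i))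
    (hτ : ∀ i b, b ≠ ℓ → 5 ≤ (P ℓ b ∩ τ i).encard)
    (hττ : ∀ i j, i ≠ j → ¬ 5 ≤ (τ i ∩ τ j).encard)
    (hQ : ∀ c e i, c ≠ ℓ → e ≠ ℓ → c ≠ e → ¬ 5 ≤ (P c e ∩ τ i).encard)
    (hex : ∃ c e, c ≠ ℓ ∧ e ≠ ℓ ∧ c ≠ e) :
    ∃ a a', d a a' = 1 ∧ (∀ b, b ≠ ℓ → a ∈ P ℓ b ∧ a' ∈ P ℓ b) ∧
      ∀ c e, c ≠ ℓ → e ≠ ℓ → c ≠ e → ∀ u ∈ P c e, d a u = d a' u + 1 := by
  classical
  obtain ⟨p, hp⟩ := exists_param h x₀ y₀
  have hblk : ∀ i, ∃ l r, l + 4 ≤ r ∧ r ≤ d x₀ y₀ ∧ (∀ t, l ≤ t → t ≤ r → p t ∈ τ i) ∧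
      ∀ v ∈ τ i, l ≤ pos d x₀ y₀ v ∧ pos d x₀ y₀ v ≤ r := by
    intro i
    apply exists_block h hp (hτcvx i)
    rw [← hP₀]
    exact hτ i b₀ hb₀
  choose l r hlr hrn hmem hpos using hblk
  have hnorun : ∀ i j, i ≠ j → ∀ m, m + 4 ≤ d x₀ y₀ →
      ¬ ((l i ≤ m ∧ m + 4 ≤ r i) ∧ (l j ≤ m ∧ m + 4 ≤ r j)) := by
    rintro i j hij m hm ⟨⟨h1, h2⟩, h3, h4⟩
    apply hττ i j hij
    apply big_of_run h hp hm
    intro t ht1 ht2
    exact ⟨hmem i t (by omega) (by omega), hmem j t (by omega) (by omega)⟩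
  have hinj : Function.Injective l := by
    intro i j hij
    by_contra hne
    have h1 := hlr i
    have h2 := hlr j
    have h3 := hrn i
    apply hnorun i j hne (l i) (by omega)
    omega
  let σ : Equiv.Perm (Fin 17) := Tuple.sort l
  have hmono : Monotone (l ∘ σ) := Tuple.monotone_sort l
  have hstrict : StrictMono (l ∘ σ) := hmono.strictMono_of_injective
    (hinj.comp σ.injective)
  have hL : ∀ i j : Fin 17, i < j → l (σ i) < l (σ j) := fun i j hij => hstrict hij
  have hRL : ∀ i j : Fin 17, i < j → r (σ i) ≤ l (σ j) + 3 := by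
    intro i j hij
    by_contra hcon
    push Not at hcon
    have h1 := hL i j hij
    have h2 := hlr (σ j)
    have h3 := hrn (σ j)
    apply hnorun (σ i) (σ j) (fun e => hij.ne (σ.injective e)) (l (σ j)) (by omega)
    omega
  -- the five blocks
  have step4 : ∀ i₀ i₁ i₂ i₃ i₄ : Fin 17, i₀ < i₁ → i₁ < i₂ → i₂ < i₃ → i₃ < i₄ →
      r (σ i₀) ≤ l (σ i₄) := by
    intro i₀ i₁ i₂ i₃ i₄ h01 h12 h23 h34
    have h1 := hRL i₀ i₁ h01
    have h2 := hL i₁ i₂ h12
    have h3 := hL i₂ i₃ h23
    have h4 := hL i₃ i₄ h34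
    omega
  have b04 := step4 0 1 2 3 4 (by decide) (by decide) (by decide) (by decide)
  have b48 := step4 4 5 6 7 8 (by decide) (by decide) (by decide) (by decide)
  have b812 := step4 8 9 10 11 12 (by decide) (by decide) (by decide) (by decide)
  have b1216 := step4 12 13 14 15 16 (by decide) (by decide) (by decide) (by decide)
  have w4 := hlr (σ 4)
  have w8 := hlr (σ 8)
  have w12 := hlr (σ 12)
  have w16 := hlr (σ 16)
  have n16 := hrn (σ 16)
  set s := r (σ 0) with hs
  set e := l (σ 16) with he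
  -- all `P ℓ b` contain the part of the segment between `s` and `e`
  have hPmem : ∀ b, b ≠ ℓ → ∀ t, s ≤ t → t ≤ e → p t ∈ P ℓ b := by
    intro b hb t h1 h2
    have ne0 : (P ℓ b ∩ τ (σ 0)).Nonempty := by
      rw [← Set.encard_pos]
      exact lt_of_lt_of_le (by norm_num) (hτ (σ 0) b hb)
    have ne16 : (P ℓ b ∩ τ (σ 16)).Nonempty := by
      rw [← Set.encard_pos]
      exact lt_of_lt_of_le (by norm_num) (hτ (σ 16) b hb)
    obtain ⟨u, hu1, hu2⟩ := ne0
    obtain ⟨v, hv1, hv2⟩ := ne16
    have q1 := hpos (σ 0) u hu2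
    have q2 := hpos (σ 16) v hv2
    exact retract h hp (hcvx ℓ b) hu1 hv1 (by omega) (by omega) (by omega)
  -- no other path contains a block
  have hnoblock : ∀ c f i, c ≠ ℓ → f ≠ ℓ → c ≠ f →
      ¬ ∀ t, l i ≤ t → t ≤ r i → p t ∈ P c f := by
    intro c f i hc hf hcf hall
    apply hQ c f i hc hf hcf
    have h1 := hlr i
    have h2 := hrn i
    apply big_of_run h hp (l := l i) (by omega)
    intro t ht1 ht2
    exact ⟨hall t (by omega) (by omega), hmem i t (by omega) (by omega)⟩
  -- an edge of the segment that is on no other path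
  have hedge : ∃ t, s ≤ t ∧ t + 1 ≤ e ∧ ∀ c f, c ≠ ℓ → f ≠ ℓ → c ≠ f →
      ¬ (p t ∈ P c f ∧ p (t + 1) ∈ P c f) := by
    by_contra hno
    push Not at hno
    obtain ⟨c, f, hc, hf, hcf, hm1, hm1'⟩ := hno s le_rfl (by omega)
    obtain ⟨c', f', hc', hf', hcf', hm2, hm2'⟩ := hno (e - 1) (by omega) (by omega)
    rw [show e - 1 + 1 = e from by omega] at hm2'
    have ps := pos_param h hp (t := s) (by omega)
    have pe := pos_param h hp (t := e) (by omega)
    -- the first path stays left of the end of block 4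
    have hleft : ∀ u ∈ P c f, pos d x₀ y₀ u < r (σ 4) := by
      intro u hu
      by_contra hge
      apply hnoblock c f (σ 4) hc hf hcf
      intro t ht1 ht2
      exact retract h hp (hcvx c f) hm1 hu (by omega) (by omega) (by omega)
    have hright : ∀ u ∈ P c' f', l (σ 12) < pos d x₀ y₀ u := by
      intro u hu
      by_contra hge
      apply hnoblock c' f' (σ 12) hc' hf' hcf'
      intro t ht1 ht2
      exact retract h hp (hcvx c' f') hu hm2' (by omega) (by omega) (by omega)
    -- every path meeting both contains block 8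
    have hboth : ∀ g g', g ≠ ℓ → g' ≠ ℓ → g ≠ g' → (P g g' ∩ P c f).Nonempty →
        (P g g' ∩ P c' f').Nonempty → False := by
      rintro g g' hg hg' hgg ⟨u, hu1, hu2⟩ ⟨v, hv1, hv2⟩
      have q1 := hleft u hu2
      have q2 := hright v hv2
      apply hnoblock g g' (σ 8) hg hg' hgg
      intro t ht1 ht2
      exact retract h hp (hcvx g g') hu1 hv1 (by omega) (by omega) (by omega)
    by_cases hcc : c = c'
    · subst hcc
      exact hboth c f hc hf hcf (by rw [Set.inter_self]; exact ⟨_, hm1⟩) (hmeet c f f' hcf hcf')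
    · refine hboth c c' hc hc' hcc (hmeet c c' f hcc hcf) ?_
      rw [hsymm c c']
      exact hmeet c' c f' (fun e => hcc e.symm) hcf'
  obtain ⟨t, hst, hte, hnot⟩ := hedge
  have pt := pos_param h hp (t := t) (by omega)
  have pt1 := pos_param h hp (t := t + 1) (by omega)
  -- every other path lies on one side
  have hside : ∀ c f, c ≠ ℓ → f ≠ ℓ → c ≠ f → ∀ u ∈ P c f, ∀ v ∈ P c f,
      ¬ (pos d x₀ y₀ u ≤ t ∧ t + 1 ≤ pos d x₀ y₀ v) := by
    rintro c f hc hf hcf u hu v hv ⟨h1, h2⟩
    apply hnot c f hc hf hcf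
    exact ⟨retract h hp (hcvx c f) hu hv (by omega) (by omega) (by omega),
      retract h hp (hcvx c f) hu hv (by omega) (by omega) (by omega)⟩
  have hside1 : ∀ c f f', c ≠ ℓ → f ≠ ℓ → f' ≠ ℓ → c ≠ f → c ≠ f' → ∀ u ∈ P c f, ∀ v ∈ P c f',
      ¬ (pos d x₀ y₀ u ≤ t ∧ t + 1 ≤ pos d x₀ y₀ v) := by
    rintro c f f' hc hf hf' hcf hcf' u hu v hv ⟨h1, h2⟩
    obtain ⟨w, hw1, hw2⟩ := hmeet c f f' hcf hcf'
    have q1 := hside c f hc hf hcf u hu w hw1
    have q2 := hside c f' hc hf' hcf' w hw2 v hv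
    omega
  have hside2 : ∀ c f c' f', c ≠ ℓ → f ≠ ℓ → c' ≠ ℓ → f' ≠ ℓ → c ≠ f → c' ≠ f' →
      ∀ u ∈ P c f, ∀ v ∈ P c' f', ¬ (pos d x₀ y₀ u ≤ t ∧ t + 1 ≤ pos d x₀ y₀ v) := by
    rintro c f c' f' hc hf hc' hf' hcf hcf' u hu v hv ⟨h1, h2⟩
    by_cases hcc : c = c'
    · subst hcc
      exact hside1 c f f' hc hf hf' hcf hcf' u hu v hv ⟨h1, h2⟩
    · have hcc' : c' ≠ c := fun e => hcc e.symm
      obtain ⟨w, hw1, hw2⟩ := hmeet c f c' hcf hcc
      have q1 := hside1 c f c' hc hf hc' hcf hcc u hu w hw2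
      rw [hsymm] at hw2
      have q2 := hside1 c' c f' hc' hc hf' hcc' hcf' w hw2 v hv
      omega
  have hstep : d (p t) (p (t + 1)) = 1 := by
    obtain ⟨g1, g2⟩ := hp t (by omega)
    obtain ⟨g3, g4⟩ := hp (t + 1) (by omega)
    have t1 := h.tri x₀ (p t) (p (t + 1))
    have s1 := h.symm (p t) x₀
    have s2 := h.symm (p (t + 1)) x₀
    have f1 := h.four (p t) (p (t + 1)) x₀ y₀
    omega
  obtain ⟨c₀, f₀, hc₀, hf₀, hcf₀⟩ := hex
  obtain ⟨u₀, hu₀, _⟩ := hmeet c₀ f₀ f₀ hcf₀ hcf₀
  rcases Nat.lt_or_ge t (pos d x₀ y₀ u₀) with hlt | hge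
  · -- the other paths are on the right
    refine ⟨p t, p (t + 1), hstep, ?_, ?_⟩
    · intro b hb
      exact ⟨hPmem b hb t (by omega) (by omega), hPmem b hb (t + 1) (by omega) (by omega)⟩
    · intro c f hc hf hcf u hu
      have q := hside2 c f c₀ f₀ hc hf hc₀ hf₀ hcf hcf₀ u hu u₀ hu₀
      have hu1 : t + 1 ≤ pos d x₀ y₀ u := by omega
      obtain ⟨g1, g2⟩ := hp t (by omega)
      obtain ⟨g3, g4⟩ := hp (t + 1) (by omega)
      have pu := pos_spec (x₀ := x₀) (y₀ := y₀) h u
      have s1 := h.symm (p t) x₀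
      have s2 := h.symm (p (t + 1)) x₀
      have s3 := h.symm (p t) u
      have s4 := h.symm (p (t + 1)) u
      have s5 := h.symm u x₀
      have s6 := h.symm y₀ u
      have f1 := h.four (p (t + 1)) u x₀ y₀
      have f2 := h.four (p t) y₀ u x₀
      have t1 := h.tri (p t) (p (t + 1)) u
      have t2 := h.tri x₀ (p t) u
      omega
  · -- the other paths are on the left
    have hstep' : d (p (t + 1)) (p t) = 1 := by rw [h.symm]; exact hstep
    refine ⟨p (t + 1), p t, hstep', ?_, ?_⟩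
    · intro b hb
      exact ⟨hPmem b hb (t + 1) (by omega) (by omega), hPmem b hb t (by omega) (by omega)⟩
    · intro c f hc hf hcf u hu
      have q := hside2 c₀ f₀ c f hc₀ hf₀ hc hf hcf₀ hcf u₀ hu₀ u hu
      have hu1 : pos d x₀ y₀ u ≤ t := by omega
      obtain ⟨g1, g2⟩ := hp t (by omega)
      obtain ⟨g3, g4⟩ := hp (t + 1) (by omega)
      have pu := pos_spec (x₀ := x₀) (y₀ := y₀) h u
      have s1 := h.symm (p t) x₀
      have s2 := h.symm (p (t + 1)) x₀
      have s3 := h.symm (p t) u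
      have s4 := h.symm (p (t + 1)) u
      have s5 := h.symm u x₀
      have s6 := h.symm y₀ u
      have f1 := h.four (p t) u x₀ y₀
      have f2 := h.four (p (t + 1)) x₀ u y₀
      have t1 := h.tri (p (t + 1)) (p t) u
      have t2 := h.tri u (p (t + 1)) y₀
      omega

end Line

/-! ### Subtrees of maximum degree at most two are segments -/

lemma seg_of_subtree [Finite W] (hT : T.IsTree) {S : Set W} (hS : (T.induce S).Connected)
    (hdeg : ∀ w ∈ S, (T.neighborSet w ∩ S).encard ≤ 2) : ∃ x y, S = Seg T.dist x y := by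
  classical
  have h := td_of_tree hT
  have hne : S.Nonempty := by
    obtain ⟨⟨x, hx⟩⟩ := hS.nonempty
    exact ⟨x, hx⟩
  have hfin : (S ×ˢ S).Finite := Set.toFinite _
  obtain ⟨⟨x, y⟩, hxy, hmax⟩ := hfin.exists_maximalFor (fun z : W × W => T.dist z.1 z.2) _
    (hne.prod hne)
  have hx : x ∈ S := hxy.1
  have hy : y ∈ S := hxy.2
  have hmax' : ∀ u ∈ S, ∀ v ∈ S, T.dist u v ≤ T.dist x y := by
    intro u hu v hv
    rcases le_total (T.dist u v) (T.dist x y) with hle | hle
    · exact hle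
    · exact hmax (j := (u, v)) ⟨hu, hv⟩ hle
  refine ⟨x, y, ?_⟩
  apply Set.Subset.antisymm
  · intro z hz
    by_contra hzs
    have hzs' : T.dist x z + T.dist z y ≠ T.dist x y := hzs
    have t1 := h.tri x z y
    have p1 := h.par x z y
    have sy : T.dist z y = T.dist y z := h.symm z y
    have m1 := hmax' x hx z hz
    have m2 := hmax' y hy z hz
    have t2 := h.tri x y z
    have t3 := h.tri y x z
    have sx : T.dist y x = T.dist x y := h.symm y x
    obtain ⟨t, ht⟩ : ∃ t, 2 * t + T.dist y z = T.dist x y + T.dist x z :=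
      ⟨(T.dist x y + T.dist x z - T.dist y z) / 2, by omega⟩
    obtain ⟨m, hm1, hm2⟩ := h.btw x y t (by omega)
    have hmS : m ∈ S := convex_of_connected hT hS hx hy (by omega)
    have f1 := h.four m z x y
    have f2 := h.four x z m y
    have g1 := h.tri x m z
    have g2 := h.tri y m z
    have e1 := h.symm m x
    have e2 := h.symm m y
    have e3 : T.dist z x = T.dist x z := h.symm z x
    have hzm : 2 * T.dist m z + T.dist x y = T.dist x z + T.dist y z := by omega
    have hmz : 0 < T.dist m z := by omega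
    obtain ⟨a, ha⟩ : ∃ a, T.dist m x = a + 1 := ⟨T.dist m x - 1, by omega⟩
    obtain ⟨b, hb⟩ : ∃ b, T.dist m y = b + 1 := ⟨T.dist m y - 1, by omega⟩
    obtain ⟨c, hc⟩ : ∃ c, T.dist m z = c + 1 := ⟨T.dist m z - 1, by omega⟩
    obtain ⟨n1, a1, d1⟩ := exists_step hT.connected ha
    obtain ⟨n2, a2, d2⟩ := exists_step hT.connected hb
    obtain ⟨n3, a3, d3⟩ := exists_step hT.connected hc
    have c1 : T.dist m n1 = 1 := SimpleGraph.dist_eq_one_iff_adj.mpr a1
    have c2 : T.dist m n2 = 1 := SimpleGraph.dist_eq_one_iff_adj.mpr a2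
    have c3 : T.dist m n3 = 1 := SimpleGraph.dist_eq_one_iff_adj.mpr a3
    have s1 : n1 ∈ S := convex_of_connected hT hS hmS hx (by omega)
    have s2 : n2 ∈ S := convex_of_connected hT hS hmS hy (by omega)
    have s3 : n3 ∈ S := convex_of_connected hT hS hmS hz (by omega)
    have n12 : n1 ≠ n2 := by
      rintro rfl
      have := h.tri x n1 y
      have := h.symm n1 x
      omega
    have n13 : n1 ≠ n3 := by
      rintro rfl
      have := h.tri x n1 z
      have := h.symm n1 x
      omega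
    have n23 : n2 ≠ n3 := by
      rintro rfl
      have := h.tri y n2 z
      have := h.symm n2 y
      omega
    have hsub : ({n1, n2, n3} : Set W) ⊆ T.neighborSet m ∩ S := by
      intro w hw
      simp only [Set.mem_insert_iff, Set.mem_singleton_iff] at hw
      rcases hw with rfl | rfl | rfl
      · exact ⟨a1, s1⟩
      · exact ⟨a2, s2⟩
      · exact ⟨a3, s3⟩
    have h3 : ({n1, n2, n3} : Set W).encard = 3 := by
      rw [Set.encard_insert_of_notMem, Set.encard_pair n23]
      · rfl
      · simp [n12, n13]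
    have := (Set.encard_le_encard hsub).trans (hdeg m hmS)
    rw [h3] at this
    exact absurd this (by norm_num)
  · intro z hz
    exact convex_of_connected hT hS hx hy hz

/-! ### Intersections of segments -/

section Inter

variable {d : W → W → ℕ}

lemma seg_cvx (h : TD d) (x y : W) : Cvx d (Seg d x y) := by
  intro u hu v hv z hz
  have hu' : d x u + d u y = d x y := hu
  have hv' : d x v + d v y = d x y := hv
  have t1 := h.tri x z y
  have f1 := h.four x z u v
  have f2 := h.four z y u v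
  have s1 := h.symm z u
  have s2 := h.symm y v
  have s3 := h.symm y u
  have s4 := h.symm z v
  have t2 := h.tri u v y
  have t3 := h.tri v u y
  have s5 := h.symm u v
  change d x z + d z y = d x y
  have f3 := h.four x y u v
  have f4 := h.four x y z v
  have f5 := h.four x y u z
  omega

lemma seg_dist (h : TD d) {x y u v : W} (hu : u ∈ Seg d x y) (hv : v ∈ Seg d x y)
    (huv : pos d x y u ≤ pos d x y v) : d u v + pos d x y u = pos d x y v := by
  have hu' : d x u + d u y = d x y := hu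
  have hv' : d x v + d v y = d x y := hv
  have p1 := pos_spec (x₀ := x) (y₀ := y) h u
  have p2 := pos_spec (x₀ := x) (y₀ := y) h v
  have t1 := h.tri x u v
  have f1 := h.four u v x y
  have s1 := h.symm u x
  have s2 := h.symm v x
  omega

lemma seg_inter_big (h : TD d) {a b c e : W}
    (hbig : 5 ≤ (Seg d a b ∩ Seg d c e).encard) :
    d a c + d b e + 8 ≤ d a e + d b c ∨ d a e + d b c + 8 ≤ d a c + d b e := by
  obtain ⟨p, hp⟩ := exists_param h a b
  obtain ⟨l, r, hlr, hrn, hmem, _⟩ := exists_block h hp (seg_cvx h c e) hbig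
  have ml := hmem l le_rfl (by omega)
  have mr := hmem r (by omega) le_rfl
  have ml' : d c (p l) + d (p l) e = d c e := ml
  have mr' : d c (p r) + d (p r) e = d c e := mr
  obtain ⟨l1, l2⟩ := hp l (by omega)
  obtain ⟨r1, r2⟩ := hp r hrn
  have pc := pos_spec (x₀ := a) (y₀ := b) h c
  have pe := pos_spec (x₀ := a) (y₀ := b) h e
  have s1 := h.symm b e
  have s2 := h.symm b c
  have s3 := h.symm (p l) e
  have s4 := h.symm (p r) e
  have s5 := h.symm c a
  have s6 := h.symm e a
  have s7 := h.symm (p l) a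
  have s8 := h.symm (p r) a
  have q1 := h.four c e a b
  have q2 := h.tri a c (p l)
  have q3 := h.tri a e (p l)
  have q4 := h.tri b c (p r)
  have q5 := h.tri b e (p r)
  have s9 := h.symm b (p r)
  have s10 := h.symm b (p l)
  have q6 := h.tri a (p l) c
  have q7 := h.tri a (p l) e
  have q8 := h.tri b (p r) c
  have q9 := h.tri b (p r) e
  have q10 := h.tri b (p l) c
  have q11 := h.tri b (p l) e
  have q12 := h.tri a (p r) c
  have q13 := h.tri a (p r) e
  have s11 := h.symm (p l) c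
  have s12 := h.symm (p r) c
  omega

lemma seg_inter_small (h : TD d) {a b c e : W}
    (hsmall : ¬ 5 ≤ (Seg d a b ∩ Seg d c e).encard) :
    d a c + d b e ≤ d a e + d b c + 6 ∧ d a e + d b c ≤ d a c + d b e + 6 := by
  obtain ⟨p, hp⟩ := exists_param h a b
  have pc := pos_spec (x₀ := a) (y₀ := b) h c
  have pe := pos_spec (x₀ := a) (y₀ := b) h e
  have lc := pos_le (x₀ := a) (y₀ := b) h c
  have le' := pos_le (x₀ := a) (y₀ := b) h e
  have s1 := h.symm b e
  have s2 := h.symm b c
  have mc : c ∈ Seg d c e := by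
    change d c c + d c e = d c e
    rw [h.self, Nat.zero_add]
  have me : e ∈ Seg d c e := by
    change d c e + d e e = d c e
    rw [h.self, Nat.add_zero]
  have hmem : ∀ t, t ≤ d a b → p t ∈ Seg d a b := by
    intro t ht
    obtain ⟨g1, g2⟩ := hp t ht
    change d a (p t) + d (p t) b = d a b
    omega
  by_contra hcon
  have hcase : pos d a b c + 4 ≤ pos d a b e ∨ pos d a b e + 4 ≤ pos d a b c := by omega
  rcases hcase with hc | hc
  · apply hsmall
    apply big_of_run h hp (l := pos d a b c) (by omega)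
    intro t h1 h2
    refine ⟨hmem t (by omega), ?_⟩
    exact retract h hp (seg_cvx h c e) mc me (by omega) (by omega) (by omega)
  · apply hsmall
    apply big_of_run h hp (l := pos d a b e) (by omega)
    intro t h1 h2
    refine ⟨hmem t (by omega), ?_⟩
    exact retract h hp (seg_cvx h c e) me mc (by omega) (by omega) (by omega)

lemma seg_dist' (h : TD d) {x y u v : W} (hu : u ∈ Seg d x y) (hv : v ∈ Seg d x y) :
    (d u v + pos d x y u = pos d x y v) ∨ (d u v + pos d x y v = pos d x y u) := by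
  rcases le_total (pos d x y u) (pos d x y v) with hle | hle
  · left
    exact seg_dist h hu hv hle
  · right
    rw [h.symm u v]
    exact seg_dist h hv hu hle

/-- A point of the path `x y` on the inner side of both anchors `a`, `b` lies between them. -/
lemma between_anchors (h : TD d) {x y a a' b b' w : W} (ha : a ∈ Seg d x y) (ha' : a' ∈ Seg d x y)
    (hb : b ∈ Seg d x y) (hb' : b' ∈ Seg d x y) (hw : w ∈ Seg d x y) (_h1 : d a a' = 1)
    (h2 : d a b = d a' b + 1) (h3 : d a w = d a' w + 1) (h4 : d b b' = 1)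
    (h5 : d b a = d b' a + 1) (h6 : d b w = d b' w + 1) : w ∈ Seg d a b := by
  have e1 := seg_dist' h ha ha'
  have e2 := seg_dist' h ha hb
  have e3 := seg_dist' h ha' hb
  have e4 := seg_dist' h ha hw
  have e5 := seg_dist' h ha' hw
  have e6 := seg_dist' h hb hb'
  have e7 := seg_dist' h hb ha
  have e8 := seg_dist' h hb' ha
  have e9 := seg_dist' h hb hw
  have e10 := seg_dist' h hb' hw
  have e11 := seg_dist' h hw hb
  change d a w + d w b = d a b
  omega

/-- With anchors, the intersection of two paths of disjoint index pairs is the intersection of the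
segments between the anchors. -/
lemma anchored_inter (h : TD d) {Λ : Type} (P : Λ → Λ → Set W) (hsymm : ∀ a b, P a b = P b a)
    (hseg : ∀ a b, ∃ x y, P a b = Seg d x y) (s s' : Λ → W) (h1 : ∀ l, d (s l) (s' l) = 1)
    (h2 : ∀ l b, b ≠ l → s l ∈ P l b ∧ s' l ∈ P l b)
    (h3 : ∀ l c e, c ≠ l → e ≠ l → c ≠ e → ∀ u ∈ P c e, d (s l) u = d (s' l) u + 1)
    {a b c e : Λ} (hab : a ≠ b) (hac : a ≠ c) (hae : a ≠ e) (hbc : b ≠ c) (hbe : b ≠ e)
    (hce : c ≠ e) : P a b ∩ P c e = Seg d (s a) (s b) ∩ Seg d (s c) (s e) := by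
  have one : ∀ a b c e, a ≠ b → a ≠ c → a ≠ e → b ≠ c → b ≠ e → c ≠ e →
      ∀ w, w ∈ P a b → w ∈ P c e → w ∈ Seg d (s a) (s b) := by
    intro a b c e hab hac hae hbc hbe hce w hw1 hw2
    obtain ⟨x, y, hxy⟩ := hseg a b
    have ha := h2 a b hab.symm
    have hb := h2 b a hab
    rw [hsymm b a] at hb
    rw [hxy] at ha hb hw1
    have hbm := (h2 b c hbc.symm).1
    have ham := (h2 a c hac.symm).1
    exact between_anchors h ha.1 ha.2 hb.1 hb.2 hw1 (h1 a)
      (h3 a b c hab.symm hac.symm hbc _ hbm) (h3 a c e hac.symm hae.symm hce w hw2) (h1 b)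
      (h3 b a c hab hbc.symm hac _ ham) (h3 b c e hbc.symm hbe.symm hce w hw2)
  have two : ∀ a b, a ≠ b → Seg d (s a) (s b) ⊆ P a b := by
    intro a b hab w hw
    obtain ⟨x, y, hxy⟩ := hseg a b
    have ha := (h2 a b hab.symm).1
    have hb := (h2 b a hab).1
    rw [hsymm b a] at hb
    rw [hxy] at ha hb ⊢
    exact seg_cvx h x y _ ha _ hb w hw
  ext w
  constructor
  · rintro ⟨hw1, hw2⟩
    exact ⟨one a b c e hab hac hae hbc hbe hce w hw1 hw2,
      one c e a b hce hac.symm hbc.symm hae.symm hbe.symm hab w hw2 hw1⟩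
  · rintro ⟨hw1, hw2⟩
    exact ⟨two a b hab hw1, two c e hce hw2⟩

end Inter

/-! ### The arithmetic core -/

section Core

variable {d : W → W → ℕ}

/-- Half of the Gromov product. -/
def gp (d : W → W → ℕ) (u x y : W) : ℕ := (d u x + d u y - d x y) / 2

lemma gp_spec (h : TD d) (u x y : W) : 2 * gp d u x y + d x y = d u x + d u y := by
  have h1 := h.par u x y
  have h2 := h.tri x u y
  have h3 := h.symm x u
  unfold gp
  omega

lemma gp_comm (h : TD d) (u x y : W) : gp d u x y = gp d u y x := by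
  have h1 := gp_spec h u x y
  have h2 := gp_spec h u y x
  have h3 := h.symm x y
  omega

lemma gp_ultra (h : TD d) (u x y z : W) :
    gp d u x z ≤ gp d u x y ∨ gp d u y z ≤ gp d u x y := by
  have h1 := gp_spec h u x y
  have h2 := gp_spec h u y z
  have h3 := gp_spec h u x z
  have h4 := h.four x y u z
  have s1 := h.symm x u
  have s2 := h.symm y u
  omega

/-- The paths `a b` and `c e` share at least four edges. -/
def Far (d : W → W → ℕ) (a b c e : W) : Prop :=
  d a c + d b e + 8 ≤ d a e + d b c ∨ d a e + d b c + 8 ≤ d a c + d b e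

/-- The paths `a b` and `c e` share at most three edges. -/
def Near (d : W → W → ℕ) (a b c e : W) : Prop :=
  d a c + d b e ≤ d a e + d b c + 6 ∧ d a e + d b c ≤ d a c + d b e + 6

lemma core_nat {aa bb ab ab' a'b av a'v bv b'v : ℕ}
    (A1 : aa + 4 ≤ av ∨ av + 4 ≤ aa) (A2 : aa + 4 ≤ a'v ∨ a'v + 4 ≤ aa)
    (A3 : bb + 4 ≤ bv ∨ bv + 4 ≤ bb) (A4 : bb + 4 ≤ b'v ∨ b'v + 4 ≤ bb)
    (B : aa + bb ≤ ab' + a'b + 3) (D1 : ab ≤ av + 3 ∧ av ≤ ab + 3) (D2 : ab ≤ bv + 3 ∧ bv ≤ ab + 3)
    (u1 : aa ≤ av ∨ a'v ≤ av) (u2 : aa ≤ a'v ∨ av ≤ a'v) (u3 : av ≤ aa ∨ a'v ≤ aa)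
    (v1 : bb ≤ bv ∨ b'v ≤ bv) (v2 : bb ≤ b'v ∨ bv ≤ b'v) (v3 : bv ≤ bb ∨ b'v ≤ bb)
    (w1 : ab ≤ av ∨ bv ≤ av) (w2 : ab ≤ bv ∨ av ≤ bv) (w3 : av ≤ ab ∨ bv ≤ ab)
    (x1 : aa ≤ ab ∨ a'b ≤ ab) (y1 : bb ≤ ab ∨ ab' ≤ ab) :
    av = bv ∧ ab = av + 3 := by
  omega

lemma far_symm (h : TD d) {a b c e : W} (hf : Far d a b c e) : Far d c e a b := by
  unfold Far at hf ⊢
  have s1 := h.symm c a
  have s2 := h.symm e b
  have s3 := h.symm c b
  have s4 := h.symm e a
  omega

lemma near_symm (h : TD d) {a b c e : W} (hf : Near d a b c e) : Near d c e a b := by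
  unfold Near at hf ⊢
  have s1 := h.symm c a
  have s2 := h.symm e b
  have s3 := h.symm c b
  have s4 := h.symm e a
  omega

lemma far_root (h : TD d) {u x y z : W} (hf : Far d x u y z) :
    gp d u x y + 4 ≤ gp d u x z ∨ gp d u x z + 4 ≤ gp d u x y := by
  unfold Far at hf
  have k1 := gp_spec h u x y
  have k2 := gp_spec h u x z
  omega

lemma near_root (h : TD d) {u x y z : W} (hf : Near d x u y z) :
    gp d u x y ≤ gp d u x z + 3 ∧ gp d u x z ≤ gp d u x y + 3 := by
  unfold Near at hf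
  have k1 := gp_spec h u x y
  have k2 := gp_spec h u x z
  omega

lemma near_four (h : TD d) {a a' b b' : W} (u : W) (B : Near d a b a' b') :
    gp d u a a' + gp d u b b' ≤ gp d u a b' + gp d u a' b + 3 := by
  unfold Near at B
  have k1 := gp_spec h u a a'
  have k2 := gp_spec h u b b'
  have k3 := gp_spec h u a b'
  have k4 := gp_spec h u a' b
  have s1 := h.symm b a'
  omega

lemma form_of_gp (h : TD d) {a b u v : W} (h1 : gp d u a v = gp d u b v)
    (h2 : gp d u a b = gp d u a v + 3) :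
    d a u + d b v = d a b + d u v + 6 ∧ d a v + d b u = d a b + d u v + 6 := by
  have k1 := gp_spec h u a v
  have k2 := gp_spec h u b v
  have k3 := gp_spec h u a b
  have s1 := h.symm a u
  have s2 := h.symm b u
  omega

lemma gp_ultra' (h : TD d) (u x y z : W) :
    (gp d u x y ≤ gp d u x z ∨ gp d u y z ≤ gp d u x z) ∧
    (gp d u x y ≤ gp d u y z ∨ gp d u x z ≤ gp d u y z) ∧
    (gp d u x z ≤ gp d u x y ∨ gp d u y z ≤ gp d u x y) := by
  have c1 := gp_comm h u x y
  have c2 := gp_comm h u y z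
  have c3 := gp_comm h u x z
  refine ⟨?_, ?_, gp_ultra h u x y z⟩
  · have := gp_ultra h u x z y
    rwa [← c2] at this
  · have := gp_ultra h u y z x
    rwa [← c1, ← c3] at this

lemma core_step (h : TD d) {a a' b b' u v : W}
    (A1 : Far d a u a' v) (A2 : Far d a v a' u) (A3 : Far d b u b' v) (A4 : Far d b v b' u)
    (B : Near d a b a' b') (D1 : Near d a u b v) (D2 : Near d a v b u) :
    d a u + d b v = d a b + d u v + 6 ∧ d a v + d b u = d a b + d u v + 6 := by
  have r1 := far_root h A1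
  have r2 := far_root h (far_symm h A2)
  have r3 := far_root h A3
  have r4 := far_root h (far_symm h A4)
  have r5 := near_four h u B
  have r6 := near_root h D1
  have r7 := near_root h (near_symm h D2)
  rw [gp_comm h u a' a] at r2
  rw [gp_comm h u b' b] at r4
  rw [gp_comm h u b a] at r7
  obtain ⟨u1, u2, u3⟩ := gp_ultra' h u a a' v
  obtain ⟨v1, v2, v3⟩ := gp_ultra' h u b b' v
  obtain ⟨w1, w2, w3⟩ := gp_ultra' h u a b v
  have x1 := gp_ultra h u a b a'
  rw [gp_comm h u b a'] at x1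
  have y1 := gp_ultra h u b a b'
  rw [gp_comm h u b a] at y1
  have key := core_nat r1 r2 r3 r4 r5 r6 r7 u1 u2 u3 v1 v2 v3 w1 w2 w3 x1 y1
  exact form_of_gp h key.1 key.2

lemma core_final_nat {av bv ab wv zv wz aw az bw bz : ℕ}
    (h1 : av = bv) (h2 : ab = av + 3) (h3 : wv = zv) (h4 : wz = wv + 3)
    (h5 : ab + wz = aw + bz + 3) (h6 : ab + wz = az + bw + 3)
    (t1 : bz ≤ bv ∨ zv ≤ bv) (t2 : bz ≤ zv ∨ bv ≤ zv) (t3 : bv ≤ bz ∨ zv ≤ bz)
    (v1 : ab ≤ aw ∨ bw ≤ aw) (v2 : ab ≤ bw ∨ aw ≤ bw) (v3 : aw ≤ ab ∨ bw ≤ ab)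
    (w1 : bw ≤ bz ∨ wz ≤ bz) (w2 : bw ≤ wz ∨ bz ≤ wz) (w3 : bz ≤ bw ∨ wz ≤ bw) :
    False := by
  omega

lemma core_final (h : TD d) {a b u v w z : W}
    (E1 : d a u + d b v = d a b + d u v + 6 ∧ d a v + d b u = d a b + d u v + 6)
    (E2 : d w u + d z v = d w z + d u v + 6 ∧ d w v + d z u = d w z + d u v + 6)
    (E3 : d a w + d b z = d a b + d w z + 6 ∧ d a z + d b w = d a b + d w z + 6) : False := by
  have kab := gp_spec h u a b
  have kwz := gp_spec h u w z
  have kav := gp_spec h u a v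
  have kbv := gp_spec h u b v
  have kwv := gp_spec h u w v
  have kzv := gp_spec h u z v
  have kaw := gp_spec h u a w
  have kaz := gp_spec h u a z
  have kbw := gp_spec h u b w
  have kbz := gp_spec h u b z
  have s1 := h.symm a u
  have s2 := h.symm b u
  have s3 := h.symm w u
  have s4 := h.symm z u
  have h1 : gp d u a v = gp d u b v := by omega
  have h2 : gp d u a b = gp d u a v + 3 := by omega
  have h3 : gp d u w v = gp d u z v := by omega
  have h4 : gp d u w z = gp d u w v + 3 := by omega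
  have h5 : gp d u a b + gp d u w z = gp d u a w + gp d u b z + 3 := by omega
  have h6 : gp d u a b + gp d u w z = gp d u a z + gp d u b w + 3 := by omega
  obtain ⟨t1, t2, t3⟩ := gp_ultra' h u b z v
  obtain ⟨v1, v2, v3⟩ := gp_ultra' h u a b w
  obtain ⟨w1, w2, w3⟩ := gp_ultra' h u b w z
  exact core_final_nat h1 h2 h3 h4 h5 h6 t1 t2 t3 v1 v2 v3 w1 w2 w3

end Core

end Pool.Agent.Helper997.TreeMetric
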